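import Pool.Agent.K6.H30.TT.Defs

set_option autoImplicit false

/-!
# The construction: types, groups of types, transversal edges and edges inside a group
-/

namespace Pool.Agent.K6.H30.TT
open Finset

/-- occupation numbers of the types of a group -/
lemma group_bound {h s r : ℕ} (hsh : s ≤ h) (hrs : r ≤ 2 * s) (a : Fin h → ℕ)
    (ha : ∀ S : Finset (Fin h), S.card = s → ∑ c ∈ S, a c < r) :
    ∑ c, a c ≤ (univ.filter (fun c => 1 ≤ a c)).card + (r - 1) := by
  classical
  set D2 : Finset (Fin h) := univ.filter (fun c => 2 ≤ a c) with hD2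
  have h2 : D2.card < s := by
    by_contra hcon
    obtain ⟨S, hS, hSc⟩ := Finset.exists_subset_card_eq (show s ≤ D2.card by omega)
    have h3 := ha S hSc
    have h4 : ∑ c ∈ S, 2 ≤ ∑ c ∈ S, a c := sum_le_sum fun c hc => by
      have := hS hc
      simp only [hD2, mem_filter, mem_univ, true_and] at this
      exact this
    simp only [sum_const, smul_eq_mul, hSc] at h4
    omega
  obtain ⟨S, hS, hSc⟩ := Finset.exists_superset_card_eq (s := D2) (n := s) h2.le
    (by simpa using hsh)
  have h3 := ha S hSc
  have h4 : ∑ c ∈ D2, a c ≤ ∑ c ∈ S, a c := sum_le_sum_of_subset hS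
  have h5 : ∑ c, a c = ∑ c ∈ D2, a c + ∑ c ∈ D2ᶜ, a c := by
    rw [sum_add_sum_compl]
  have h6 : ∑ c ∈ D2ᶜ, a c ≤ (univ.filter (fun c => 1 ≤ a c)).card := by
    rw [card_filter]
    calc ∑ c ∈ D2ᶜ, a c ≤ ∑ c ∈ D2ᶜ, (if 1 ≤ a c then 1 else 0) := by
          refine sum_le_sum fun c hc => ?_
          simp only [hD2, mem_compl, mem_filter, mem_univ, true_and, not_le] at hc
          split_ifs with h7 <;> omega
      _ ≤ ∑ c, (if 1 ≤ a c then 1 else 0) := sum_le_sum_of_subset (subset_univ _)
  omega

variable {g h N r s : ℕ}

/-- transversal edges -/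
def E1 (g h N r : ℕ) (F : Finset (Finset (Fin g × Fin h))) :
    Finset (Finset ((Fin g × Fin h) × Fin N)) :=
  univ.filter (fun E => E.card = r ∧ E.image Prod.fst ∈ F)

/-- the vertices of the types in `S` of the group `j` -/
def cell (g h N : ℕ) (j : Fin g) (S : Finset (Fin h)) : Finset ((Fin g × Fin h) × Fin N) :=
  (({j} : Finset (Fin g)) ×ˢ S) ×ˢ (univ : Finset (Fin N))

/-- edges with at most `s` types, all in one group -/
def E2 (g h N r s : ℕ) : Finset (Finset ((Fin g × Fin h) × Fin N)) :=
  ((univ : Finset (Fin g)) ×ˢ powersetCard s (univ : Finset (Fin h))).biUnion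
    (fun p => powersetCard r (cell g h N p.1 p.2))

lemma card_E2 : (E2 g h N r s).card ≤ g * h.choose s * (s * N).choose r := by
  classical
  unfold E2
  refine card_biUnion_le.trans ?_
  calc ∑ p ∈ (univ : Finset (Fin g)) ×ˢ powersetCard s (univ : Finset (Fin h)),
        (powersetCard r (cell g h N p.1 p.2)).card
      = ∑ p ∈ (univ : Finset (Fin g)) ×ˢ powersetCard s (univ : Finset (Fin h)),
        (s * N).choose r := by
        refine sum_congr rfl fun p hp => ?_
        have := (mem_powersetCard.1 (Finset.mem_product.1 hp).2).2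
        rw [card_powersetCard, cell, card_product, card_product, card_singleton, this]
        simp
    _ = g * h.choose s * (s * N).choose r := by
        rw [sum_const, card_product, card_powersetCard, card_univ, card_univ]
        simp
    _ ≤ _ := le_rfl

lemma card_E1 (F : Finset (Finset (Fin g × Fin h))) (hF : ∀ I ∈ F, I.card = r) :
    (E1 g h N r F).card ≤ F.card * N ^ r := by
  classical
  have hsub : E1 g h N r F ⊆ F.biUnion (fun I =>
      (univ : Finset (I → Fin N)).image (fun φ => univ.image (fun i : I => (i.1, φ i)))) := by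
    intro E hE
    simp only [E1, mem_filter, mem_univ, true_and] at hE
    obtain ⟨hEr, hEF⟩ := hE
    rw [Finset.mem_biUnion]
    refine ⟨E.image Prod.fst, hEF, ?_⟩
    have hex : ∀ i : (E.image Prod.fst : Finset _), ∃ y : Fin N, (i.1, y) ∈ E := by
      rintro ⟨i, hi⟩
      obtain ⟨x, hx, hx2⟩ := Finset.mem_image.1 hi
      exact ⟨x.2, by subst hx2; exact hx⟩
    choose φ hφ using hex
    rw [Finset.mem_image]
    refine ⟨φ, mem_univ _, ?_⟩
    apply Finset.eq_of_subset_of_card_le
    · intro x hx
      obtain ⟨i, _, rfl⟩ := Finset.mem_image.1 hx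
      exact hφ i
    · rw [card_image_of_injective _ (by
        intro i j hij
        simp only [Prod.mk.injEq] at hij
        exact Subtype.ext hij.1)]
      rw [card_univ, Fintype.card_coe, hF _ hEF, hEr]
  refine (card_le_card hsub).trans (card_biUnion_le.trans ?_)
  calc ∑ I ∈ F, ((univ : Finset (I → Fin N)).image
        (fun φ => univ.image (fun i : I => (i.1, φ i)))).card
      ≤ ∑ I ∈ F, N ^ r := by
        refine sum_le_sum fun I hI => card_image_le.trans ?_
        rw [card_univ, Fintype.card_fun, Fintype.card_fin, Fintype.card_coe, hF I hI]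
    _ = F.card * N ^ r := by rw [sum_const, smul_eq_mul]

/-- **The construction.** -/
theorem T_blow (F : Finset (Finset (Fin g × Fin h))) (u a : ℕ)
    (hF : ∀ I ∈ F, I.card = r) (hit : ∀ U : Finset (Fin g × Fin h), U.card = u → ∃ I ∈ F, I ⊆ U)
    (hsh : s ≤ h) (hrs : r ≤ 2 * s) (hu : u + g * (r - 1) ≤ a + 1) :
    T (g * h * N) (a + 1) r ≤ F.card * N ^ r + g * h.choose s * (s * N).choose r := by
  classical
  have key := T_le (V := (Fin g × Fin h) × Fin N) (k := a + 1) (r := r) (by omega)
    (E1 g h N r F ∪ E2 g h N r s) (by
      intro e he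
      rcases Finset.mem_union.1 he with he | he
      · exact (by simpa [E1] using he : _ ∧ _).1
      · unfold E2 at he
        obtain ⟨p, _, hp⟩ := Finset.mem_biUnion.1 he
        exact (mem_powersetCard.1 hp).2) (by
      intro A hA
      have hA1 : ∀ E ∈ E1 g h N r F, ¬ E ⊆ A := fun E hE => hA E (Finset.mem_union_left _ hE)
      have hA2 : ∀ E ∈ E2 g h N r s, ¬ E ⊆ A := fun E hE => hA E (Finset.mem_union_right _ hE)
      set b : Fin g × Fin h → ℕ := fun p => (A.filter (fun x => x.1 = p)).card with hb
      have hAcard : A.card = ∑ p, b p :=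
        Finset.card_eq_sum_card_fiberwise (s := A) (t := (univ : Finset (Fin g × Fin h)))
          (f := Prod.fst) (fun x _ => mem_univ _)
      -- the number of the types that occur
      have hD : (univ.filter (fun p => 1 ≤ b p)).card < u := by
        by_contra hcon
        obtain ⟨U, hU, hUc⟩ := Finset.exists_subset_card_eq
          (show u ≤ (univ.filter (fun p => 1 ≤ b p)).card by omega)
        obtain ⟨I, hI, hIU⟩ := hit U hUc
        have hex : ∀ i : I, ∃ x ∈ A, x.1 = i.1 := by
          rintro ⟨i, hi⟩
          have h1 := hU (hIU hi)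
          simp only [mem_filter, mem_univ, true_and, hb] at h1
          obtain ⟨x, hx⟩ := Finset.card_pos.1 h1
          rw [mem_filter] at hx
          exact ⟨x, hx.1, hx.2⟩
        choose φ hφ1 hφ2 using hex
        apply hA1 (univ.image φ)
        · simp only [E1, mem_filter, mem_univ, true_and]
          have himg : (univ.image φ).image Prod.fst = I := by
            ext i
            simp only [Finset.mem_image, mem_univ, true_and]
            constructor
            · rintro ⟨x, ⟨j, rfl⟩, rfl⟩
              rw [hφ2]; exact j.2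
            · intro hi
              exact ⟨φ ⟨i, hi⟩, ⟨⟨i, hi⟩, rfl⟩, hφ2 _⟩
          refine ⟨?_, by rw [himg]; exact hI⟩
          rw [card_image_of_injective _ (by
            intro i j hij
            apply Subtype.ext
            rw [← hφ2 i, ← hφ2 j, hij]), card_univ, Fintype.card_coe, hF I hI]
        · intro x hx
          obtain ⟨i, _, rfl⟩ := Finset.mem_image.1 hx
          exact hφ1 i
      -- the groups
      have hG : ∀ j : Fin g, ∑ c, b (j, c) ≤
          (univ.filter (fun c => 1 ≤ b (j, c))).card + (r - 1) := by
        intro j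
        apply group_bound hsh hrs
        intro S hS
        by_contra hcon
        rw [not_lt] at hcon
        have h1 : ∑ c ∈ S, b (j, c) ≤ (A ∩ cell g h N j S).card := by
          have h2 := Finset.card_eq_sum_card_fiberwise (s := A ∩ cell g h N j S)
            (t := ({j} : Finset (Fin g)) ×ˢ S) (f := Prod.fst) (by
              intro x hx
              have hx' := (Finset.mem_inter.1 (Finset.mem_coe.1 hx)).2
              unfold cell at hx'
              exact Finset.mem_coe.2 (Finset.mem_product.1 hx').1)
          rw [h2, sum_product, sum_singleton]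
          refine sum_le_sum fun c hc => ?_
          apply card_le_card
          intro x hx
          rw [mem_filter] at hx
          rw [mem_filter, Finset.mem_inter]
          refine ⟨⟨hx.1, ?_⟩, hx.2⟩
          unfold cell
          rw [Finset.mem_product, Finset.mem_product, hx.2]
          exact ⟨⟨by simp, hc⟩, mem_univ _⟩
        obtain ⟨E, hE, hEc⟩ := Finset.exists_subset_card_eq (hcon.trans h1)
        apply hA2 E
        · unfold E2
          rw [Finset.mem_biUnion]
          refine ⟨(j, S), ?_, mem_powersetCard.2 ⟨fun x hx => (Finset.mem_inter.1 (hE hx)).2, hEc⟩⟩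
          rw [Finset.mem_product]
          exact ⟨mem_univ _, mem_powersetCard.2 ⟨subset_univ _, hS⟩⟩
        · intro x hx
          exact (Finset.mem_inter.1 (hE hx)).1
      have hsum : ∑ p, b p ≤ (univ.filter (fun p => 1 ≤ b p)).card + g * (r - 1) := by
        rw [Fintype.sum_prod_type, card_filter, Fintype.sum_prod_type]
        calc ∑ j, ∑ c, b (j, c) ≤ ∑ j : Fin g, ((univ.filter (fun c => 1 ≤ b (j, c))).card
              + (r - 1)) := sum_le_sum fun j _ => hG j
          _ = _ := by
              rw [sum_add_distrib]
              simp only [card_filter, sum_const, card_univ, Fintype.card_fin, smul_eq_mul]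
      rw [hAcard]
      omega)
  rw [Fintype.card_prod, Fintype.card_prod, Fintype.card_fin, Fintype.card_fin,
    Fintype.card_fin] at key
  refine key.trans ((card_union_le _ _).trans (add_le_add (card_E1 F hF) card_E2))

end Pool.Agent.K6.H30.TT
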