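import Mathlib

set_option autoImplicit false

/-!
# Small families of `r`-sets which hit all `u`-sets
-/

namespace Pool.Agent.K6.H30.TT
open Finset

theorem exists_hitting {Ω : Type*} [Fintype Ω] [DecidableEq Ω] (u r l : ℕ) (hru : r ≤ u)
    (hum : u ≤ Fintype.card Ω)
    (hl : ((Fintype.card Ω).choose u : ℝ) *
      Real.exp (-((u.choose r : ℝ) / ((Fintype.card Ω).choose r : ℝ) * l)) < 1) :
    ∃ F : Finset (Finset Ω), F.card ≤ l ∧ (∀ I ∈ F, I.card = r) ∧
      ∀ U : Finset Ω, U.card = u → ∃ I ∈ F, I ⊆ U := by
  classical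
  set m := Fintype.card Ω with hm
  set P : Finset (Finset Ω) := powersetCard r univ with hP
  have hPc : P.card = m.choose r := by rw [hP, card_powersetCard, card_univ]
  let All : Finset (Fin l → Finset Ω) := Fintype.piFinset (fun _ => P)
  let Bad : Finset Ω → Finset (Fin l → Finset Ω) :=
    fun U => Fintype.piFinset (fun _ => P.filter (fun I => ¬ I ⊆ U))
  have hAll : All.card = (m.choose r) ^ l := by
    simp only [All]
    rw [Fintype.card_piFinset]
    simp [hPc]
  have hBad : ∀ U : Finset Ω, U.card = u → (Bad U).card = (m.choose r - u.choose r) ^ l := by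
    intro U hU
    simp only [Bad]
    rw [Fintype.card_piFinset]
    have h1 : (P.filter (fun I => ¬ I ⊆ U)).card = m.choose r - u.choose r := by
      have h2 := Finset.card_filter_add_card_filter_not (s := P) (fun I => I ⊆ U)
      have h3 : P.filter (fun I => I ⊆ U) = powersetCard r U := by
        ext I
        simp only [hP, mem_filter, mem_powersetCard, subset_univ, true_and]
        tauto
      rw [h3, card_powersetCard, hU, hPc] at h2
      omega
    simp [h1]
  -- some family is not bad for any `U`
  have hc1 : (0 : ℝ) < (m.choose r : ℝ) := by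
    exact_mod_cast Nat.choose_pos (hru.trans hum)
  have hle : u.choose r ≤ m.choose r := Nat.choose_le_choose r hum
  have hlt : ∑ U ∈ powersetCard u (univ : Finset Ω), (Bad U).card < All.card := by
    have h1 : ∑ U ∈ powersetCard u (univ : Finset Ω), (Bad U).card
        = m.choose u * (m.choose r - u.choose r) ^ l := by
      rw [Finset.sum_congr rfl fun U hU => hBad U (mem_powersetCard.1 hU).2, sum_const,
        card_powersetCard, card_univ, smul_eq_mul]
    rw [h1, hAll]
    have h2 : ((m.choose u : ℝ)) * ((m.choose r : ℝ) - (u.choose r : ℝ)) ^ l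
        < (m.choose r : ℝ) ^ l := by
      have h3 : ((m.choose r : ℝ) - (u.choose r : ℝ)) ≤ (m.choose r : ℝ) *
          Real.exp (-((u.choose r : ℝ) / (m.choose r : ℝ))) := by
        have h4 := Real.one_sub_le_exp_neg ((u.choose r : ℝ) / (m.choose r : ℝ))
        calc ((m.choose r : ℝ) - (u.choose r : ℝ))
            = (m.choose r : ℝ) * (1 - (u.choose r : ℝ) / (m.choose r : ℝ)) := by
              field_simp
          _ ≤ _ := mul_le_mul_of_nonneg_left h4 hc1.le
      have h5 : (0 : ℝ) ≤ ((m.choose r : ℝ) - (u.choose r : ℝ)) := by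
        have : (u.choose r : ℝ) ≤ (m.choose r : ℝ) := by exact_mod_cast hle
        linarith
      have h6 : ((m.choose r : ℝ) - (u.choose r : ℝ)) ^ l ≤ (m.choose r : ℝ) ^ l *
          Real.exp (-((u.choose r : ℝ) / (m.choose r : ℝ) * l)) := by
        calc ((m.choose r : ℝ) - (u.choose r : ℝ)) ^ l
            ≤ ((m.choose r : ℝ) * Real.exp (-((u.choose r : ℝ) / (m.choose r : ℝ)))) ^ l :=
              pow_le_pow_left₀ h5 h3 l
          _ = _ := by
              rw [mul_pow, ← Real.exp_nat_mul]
              congr 2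
              ring
      calc ((m.choose u : ℝ)) * ((m.choose r : ℝ) - (u.choose r : ℝ)) ^ l
          ≤ (m.choose u : ℝ) * ((m.choose r : ℝ) ^ l *
            Real.exp (-((u.choose r : ℝ) / (m.choose r : ℝ) * l))) :=
            mul_le_mul_of_nonneg_left h6 (by positivity)
        _ = (m.choose r : ℝ) ^ l * ((m.choose u : ℝ) *
            Real.exp (-((u.choose r : ℝ) / (m.choose r : ℝ) * l))) := by ring
        _ < (m.choose r : ℝ) ^ l * 1 := mul_lt_mul_of_pos_left hl (by positivity)
        _ = _ := mul_one _
    have h7 : ((m.choose u * (m.choose r - u.choose r) ^ l : ℕ) : ℝ)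
        < (((m.choose r) ^ l : ℕ) : ℝ) := by
      push_cast [Nat.cast_sub hle]
      exact h2
    exact_mod_cast h7
  have hex : ∃ f ∈ All, ∀ U : Finset Ω, U.card = u → f ∉ Bad U := by
    by_contra hcon
    push Not at hcon
    have hsub : All ⊆ (powersetCard u (univ : Finset Ω)).biUnion Bad := by
      intro f hf
      obtain ⟨U, hU, hfU⟩ := hcon f hf
      exact Finset.mem_biUnion.2 ⟨U, mem_powersetCard.2 ⟨subset_univ _, hU⟩, hfU⟩
    have := (card_le_card hsub).trans card_biUnion_le
    omega
  obtain ⟨f, hf, hfB⟩ := hex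
  have hfP : ∀ i, f i ∈ P := by
    intro i
    exact (Fintype.mem_piFinset.1 hf) i
  refine ⟨univ.image f, ?_, ?_, ?_⟩
  · exact card_image_le.trans (by simp)
  · intro I hI
    obtain ⟨i, _, rfl⟩ := Finset.mem_image.1 hI
    exact (mem_powersetCard.1 (hfP i)).2
  · intro U hU
    by_contra hcon
    push Not at hcon
    apply hfB U hU
    rw [Fintype.mem_piFinset]
    intro i
    rw [mem_filter]
    exact ⟨hfP i, hcon (f i) (Finset.mem_image_of_mem _ (mem_univ _))⟩

end Pool.Agent.K6.H30.TT
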