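import Pool.Agent.K6.H30.TT.Lim
import Pool.Agent.K6.H30.TT.Blow
import Pool.Agent.K6.H30.TT.Exist

set_option autoImplicit false

/-!
# The bound `t_*(r) ≤ log r + log log r + 20`
-/

namespace Pool.Agent.K6.H30.TT
open Finset Filter Topology

lemma log_choose_le {m u : ℕ} (hu : 0 < u) {B : ℝ} (hB : (m : ℝ) ≤ B * u) (hum : u ≤ m) :
    Real.log (m.choose u) ≤ u * (1 + Real.log B) := by
  have hB0 : 0 < B := by
    have h1 : (0 : ℝ) < m := by exact_mod_cast (lt_of_lt_of_le hu hum)
    have h2 : (0 : ℝ) < u := by exact_mod_cast hu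
    by_contra hcon
    push Not at hcon
    nlinarith
  have h1 : (m.choose u : ℝ) ≤ (m : ℝ) ^ u / (u.factorial : ℝ) := Nat.choose_le_pow_div u m
  have h2 : (u : ℝ) ^ u / (u.factorial : ℝ) ≤ Real.exp u :=
    Real.pow_div_factorial_le_exp (u : ℝ) (by positivity) u
  have h3 : (m.choose u : ℝ) ≤ (B * Real.exp 1) ^ u := by
    calc (m.choose u : ℝ) ≤ (m : ℝ) ^ u / (u.factorial : ℝ) := h1
      _ ≤ (B * u) ^ u / (u.factorial : ℝ) := by
          apply div_le_div_of_nonneg_right (pow_le_pow_left₀ (by positivity) hB u) (by positivity)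
      _ = B ^ u * ((u : ℝ) ^ u / (u.factorial : ℝ)) := by rw [mul_pow]; ring
      _ ≤ B ^ u * Real.exp u := mul_le_mul_of_nonneg_left h2 (by positivity)
      _ = (B * Real.exp 1) ^ u := by
          rw [mul_pow, ← Real.exp_nat_mul, mul_one]
  have h4 : (0 : ℝ) < (m.choose u : ℝ) := by exact_mod_cast Nat.choose_pos hum
  calc Real.log (m.choose u) ≤ Real.log ((B * Real.exp 1) ^ u) := Real.log_le_log h4 h3
    _ = u * (1 + Real.log B) := by
        rw [Real.log_pow, Real.log_mul hB0.ne' (Real.exp_pos 1).ne', Real.log_exp]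
        ring

/-- the bound at a finite level -/
lemma tStarK_bound (r R a s g : ℕ) (hr : 2 ≤ r) (hR : 1 ≤ R) (ha : r ≤ a) (hs : s ≤ R * a)
    (hrs : r ≤ 2 * s) (hg : r ≤ g) :
    tStar r ≤ (((((a - r + 1 : ℕ) : ℝ) * g + 1) *
      (1 + Real.log ((R : ℝ) * a / ((a - r + 1 : ℕ) : ℝ))) *
      ((g : ℝ) * (R * a) / (((a - r + 1 : ℕ) : ℝ) * g + (2 - r))) ^ r + 1) / (a * g)) / (R : ℝ) ^ r
      + ((R * a).choose s : ℝ) * (s : ℝ) ^ r / ((r.factorial : ℝ) * a * (R : ℝ) ^ r) := by
  classical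
  set d : ℕ := a - r + 1 with hd
  have hd1 : 1 ≤ d := by omega
  set h : ℕ := R * a with hh
  set m : ℕ := g * h with hm
  set u : ℕ := d * g + 1 with hu
  have hg1 : 1 ≤ g := by omega
  have hda : d + 1 ≤ a := by omega
  have hum : u ≤ m := by
    have h1 : (d + 1) * g ≤ a * g := Nat.mul_le_mul_right g hda
    have h2 : a * g ≤ R * (a * g) := Nat.le_mul_of_pos_left _ hR
    have h3 : g * (R * a) = R * (a * g) := by ring
    rw [hu, hm, hh, h3]
    nlinarith
  have hru : r ≤ u := by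
    have : g ≤ d * g := Nat.le_mul_of_pos_left g hd1
    omega
  have hgR : (0 : ℝ) < g := by exact_mod_cast hg1
  have haR : (0 : ℝ) < a := by exact_mod_cast (by omega : 0 < a)
  have hRR : (0 : ℝ) < R := by exact_mod_cast hR
  have hdR : (0 : ℝ) < d := by exact_mod_cast hd1
  -- the number of transversal type sets
  set Λ : ℝ := 1 + Real.log ((R : ℝ) * a / (d : ℝ)) with hΛ
  set X : ℝ := ((u : ℝ) * Λ) * ((g : ℝ) * (R * a) / ((d : ℝ) * g + (2 - r))) ^ r with hX
  have hden : (0 : ℝ) < (d : ℝ) * g + (2 - r) := by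
    have h1 : (g : ℝ) ≤ d * g := by
      have : (1 : ℝ) ≤ d := by exact_mod_cast hd1
      nlinarith
    have h2 : (r : ℝ) ≤ g := by exact_mod_cast hg
    linarith
  have hlogC : Real.log (m.choose u) ≤ (u : ℝ) * Λ := by
    apply log_choose_le (by omega) _ hum
    rw [hm, hh, hu]
    push_cast
    rw [div_mul_eq_mul_div, le_div_iff₀ hdR]
    nlinarith [mul_pos hRR haR]
  have hΛ0 : 0 ≤ Λ := by
    have : (1 : ℝ) ≤ (R : ℝ) * a / (d : ℝ) := by
      rw [le_div_iff₀ hdR, one_mul]
      have h1 : (d : ℝ) ≤ a := by exact_mod_cast (by omega : d ≤ a)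
      have h2 : (1 : ℝ) ≤ R := by exact_mod_cast hR
      nlinarith
    have := Real.log_nonneg this
    rw [hΛ]; linarith
  have hCm : (0 : ℝ) < (m.choose r : ℝ) := by exact_mod_cast Nat.choose_pos (hru.trans hum)
  have hCu : (0 : ℝ) < (u.choose r : ℝ) := by exact_mod_cast Nat.choose_pos hru
  have hratio : (m.choose r : ℝ) / (u.choose r : ℝ) ≤
      ((g : ℝ) * (R * a) / ((d : ℝ) * g + (2 - r))) ^ r := by
    rw [div_pow, div_le_div_iff₀ hCu (by positivity)]
    have h1 : (m.choose r : ℝ) ≤ (m : ℝ) ^ r / (r.factorial : ℝ) := Nat.choose_le_pow_div r m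
    have h2 : (((u + 1 - r : ℕ) : ℝ)) ^ r / (r.factorial : ℝ) ≤ (u.choose r : ℝ) :=
      Nat.pow_le_choose r u
    have h3 : (((u + 1 - r : ℕ) : ℝ)) = (d : ℝ) * g + (2 - r) := by
      rw [Nat.cast_sub (by omega), hu]
      push_cast
      ring
    rw [h3] at h2
    have h4 : (m : ℝ) = (g : ℝ) * (R * a) := by rw [hm, hh]; push_cast; ring
    rw [← h4]
    calc (m.choose r : ℝ) * ((d : ℝ) * g + (2 - r)) ^ r
        ≤ ((m : ℝ) ^ r / (r.factorial : ℝ)) * ((d : ℝ) * g + (2 - r)) ^ r :=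
          mul_le_mul_of_nonneg_right h1 (by positivity)
      _ = (m : ℝ) ^ r * (((d : ℝ) * g + (2 - r)) ^ r / (r.factorial : ℝ)) := by ring
      _ ≤ (m : ℝ) ^ r * (u.choose r : ℝ) := mul_le_mul_of_nonneg_left h2 (by positivity)
  have hX0 : 0 ≤ X := by
    rw [hX]; positivity
  set l : ℕ := ⌊X⌋₊ + 1 with hl
  have hlX : X < l := by rw [hl]; push_cast; exact Nat.lt_floor_add_one X
  have hlX2 : (l : ℝ) ≤ X + 1 := by
    rw [hl]; push_cast
    have := Nat.floor_le hX0
    linarith
  have hcardΩ : Fintype.card (Fin g × Fin h) = m := by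
    rw [Fintype.card_prod, Fintype.card_fin, Fintype.card_fin]
  obtain ⟨F, hF1, hF2, hF3⟩ := exists_hitting (Ω := Fin g × Fin h) u r l hru
    (by rw [hcardΩ]; exact hum) (by
      rw [hcardΩ]
      have hCmu : (0 : ℝ) < (m.choose u : ℝ) := by exact_mod_cast Nat.choose_pos hum
      have h1 : Real.log (m.choose u) < (u.choose r : ℝ) / (m.choose r : ℝ) * l := by
        have h2 : Real.log (m.choose u) * ((m.choose r : ℝ) / (u.choose r : ℝ)) ≤ X := by
          rw [hX]
          have h0 : 0 ≤ Real.log (m.choose u : ℝ) := by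
            apply Real.log_nonneg
            exact_mod_cast Nat.choose_pos hum
          exact mul_le_mul hlogC hratio (by positivity) (by positivity)
        have h3 : Real.log (m.choose u) * ((m.choose r : ℝ) / (u.choose r : ℝ)) < l :=
          lt_of_le_of_lt h2 hlX
        rw [← mul_div_assoc, div_lt_iff₀ hCu] at h3
        rw [div_mul_eq_mul_div, lt_div_iff₀ hCm]
        linarith
      calc (m.choose u : ℝ) * Real.exp (-((u.choose r : ℝ) / (m.choose r : ℝ) * l))
          = Real.exp (Real.log (m.choose u)) *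
            Real.exp (-((u.choose r : ℝ) / (m.choose r : ℝ) * l)) := by
            rw [Real.exp_log hCmu]
        _ = Real.exp (Real.log (m.choose u) - (u.choose r : ℝ) / (m.choose r : ℝ) * l) := by
            rw [← Real.exp_add]; ring_nf
        _ < 1 := by
            rw [Real.exp_lt_one_iff]
            linarith)
  -- the Turán number
  have hα : u + g * (r - 1) ≤ a * g + 1 := by
    have h1 : a = d + (r - 1) := by omega
    rw [hu]
    have h2 : a * g = d * g + g * (r - 1) := by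
      calc a * g = (d + (r - 1)) * g := by rw [← h1]
        _ = d * g + g * (r - 1) := by ring
    omega
  have hrk : r < a * g + 1 := by
    have : a ≤ a * g := Nat.le_mul_of_pos_right a hg1
    omega
  have hmpos : 0 < m := by
    have : 0 < h := by rw [hh]; exact Nat.mul_pos (by omega) (by omega)
    exact Nat.mul_pos (by omega) this
  set B : ℝ := (l : ℝ) / (m : ℝ) ^ r +
    g * (h.choose s : ℝ) * (s : ℝ) ^ r / ((r.factorial : ℝ) * (m : ℝ) ^ r) with hB
  have ht : t (a * g + 1) r ≤ (r.factorial : ℝ) * B := by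
    apply t_le_of_multiples hrk hmpos
    intro N
    have h1 := T_blow (g := g) (h := h) (N := N) (r := r) (s := s) F u (a * g) hF2 hF3 hs hrs hα
    have h2 : (T (m * N) (a * g + 1) r : ℝ) ≤
        (F.card : ℝ) * (N : ℝ) ^ r + g * (h.choose s : ℝ) * ((s * N).choose r : ℝ) := by
      rw [hm]
      exact_mod_cast h1
    have h3 : ((s * N).choose r : ℝ) ≤ ((s : ℝ) * N) ^ r / (r.factorial : ℝ) := by
      have := Nat.choose_le_pow_div (α := ℝ) r (s * N)
      push_cast at this
      exact this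
    have h4 : (F.card : ℝ) ≤ l := by exact_mod_cast hF1
    have hm0 : (0 : ℝ) < m := by exact_mod_cast hmpos
    calc (T (m * N) (a * g + 1) r : ℝ)
        ≤ (F.card : ℝ) * (N : ℝ) ^ r + g * (h.choose s : ℝ) * ((s * N).choose r : ℝ) := h2
      _ ≤ (l : ℝ) * (N : ℝ) ^ r + g * (h.choose s : ℝ) *
          (((s : ℝ) * N) ^ r / (r.factorial : ℝ)) := by
          apply add_le_add
          · exact mul_le_mul_of_nonneg_right h4 (by positivity)
          · exact mul_le_mul_of_nonneg_left h3 (by positivity)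
      _ = B * ((m * N : ℕ) : ℝ) ^ r := by
          rw [hB]
          push_cast
          rw [mul_pow, mul_pow]
          field_simp
  -- rescale
  have h5 := tStar_le (r := r) (by omega) hrk
  refine h5.trans ?_
  unfold tStarK
  have h6 : (((a * g + 1 : ℕ) : ℝ) - 1) = (a : ℝ) * g := by push_cast; ring
  rw [h6]
  have hm0 : (0 : ℝ) < m := by exact_mod_cast hmpos
  have hmR : (m : ℝ) = g * (R * a) := by rw [hm, hh]; push_cast; ring
  have hfac : (0 : ℝ) < (r.factorial : ℝ) := by positivity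
  have hsplit : ((a : ℝ) * g) ^ r = ((a : ℝ) * g) ^ (r - 1) * ((a : ℝ) * g) := by
    rw [← pow_succ, Nat.sub_add_cancel (by omega)]
  calc ((a : ℝ) * g) ^ (r - 1) / (r.factorial : ℝ) * t (a * g + 1) r
      ≤ ((a : ℝ) * g) ^ (r - 1) / (r.factorial : ℝ) * ((r.factorial : ℝ) * B) :=
        mul_le_mul_of_nonneg_left ht (by positivity)
    _ = ((a : ℝ) * g) ^ (r - 1) * B := by field_simp
    _ = ((l : ℝ) / (a * g)) / (R : ℝ) ^ r +
        (h.choose s : ℝ) * (s : ℝ) ^ r / ((r.factorial : ℝ) * a * (R : ℝ) ^ r) := by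
        rw [hB, hmR]
        have e1 : ((g : ℝ) * (R * a)) ^ r = (R : ℝ) ^ r * (((a : ℝ) * g) ^ (r - 1) * ((a : ℝ) * g)) := by
          rw [← hsplit, ← mul_pow]
          ring
        rw [e1]
        field_simp
    _ ≤ _ := by
        rw [hh]
        apply add_le_add _ le_rfl
        apply div_le_div_of_nonneg_right _ (by positivity)
        apply div_le_div_of_nonneg_right _ (by positivity)
        refine hlX2.trans (le_of_eq ?_)
        rw [hX, hu]
        push_cast
        ring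

lemma tendsto_lin_div (d c : ℝ) :
    Tendsto (fun g : ℕ => (d * (g : ℝ) + c) / g) atTop (𝓝 d) := by
  have h1 : Tendsto (fun g : ℕ => d + c * (1 / (g : ℝ))) atTop (𝓝 (d + c * 0)) :=
    tendsto_const_nhds.add (tendsto_one_div_atTop_nhds_zero_nat.const_mul c)
  rw [mul_zero, add_zero] at h1
  refine h1.congr' ?_
  filter_upwards [eventually_gt_atTop 0] with g hg
  have : (g : ℝ) ≠ 0 := by positivity
  field_simp

/-- **The bound with parameters.** -/
theorem tStar_le_param (r R a s : ℕ) (hr : 2 ≤ r) (hR : 1 ≤ R) (ha : r ≤ a) (hs : s ≤ R * a)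
    (hrs : r ≤ 2 * s) :
    tStar r ≤ ((a : ℝ) / ((a - r + 1 : ℕ) : ℝ)) ^ (r - 1) *
      (1 + Real.log ((R : ℝ) * a / ((a - r + 1 : ℕ) : ℝ)))
      + ((R * a).choose s : ℝ) * (s : ℝ) ^ r / ((r.factorial : ℝ) * a * (R : ℝ) ^ r) := by
  set d : ℝ := ((a - r + 1 : ℕ) : ℝ) with hd
  have hd0 : 0 < d := by rw [hd]; positivity
  have haR : (0 : ℝ) < a := by exact_mod_cast (by omega : 0 < a)
  have hRR : (0 : ℝ) < R := by exact_mod_cast hR
  set Λ : ℝ := 1 + Real.log ((R : ℝ) * a / d) with hΛ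
  set c2 : ℝ := ((R * a).choose s : ℝ) * (s : ℝ) ^ r / ((r.factorial : ℝ) * a * (R : ℝ) ^ r) with hc2
  have h1 : Tendsto (fun g : ℕ => ((d * (g : ℝ) + 1) / g * Λ * ((R * a) / ((d * g + (2 - r)) / g)) ^ r
      + 1 / (g : ℝ)) / a / (R : ℝ) ^ r + c2) atTop
      (𝓝 ((d * Λ * ((R * a) / d) ^ r + 0) / a / (R : ℝ) ^ r + c2)) := by
    apply Tendsto.add_const
    apply Tendsto.div_const
    apply Tendsto.div_const
    apply Tendsto.add _ tendsto_one_div_atTop_nhds_zero_nat
    apply Tendsto.mul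
    · exact (tendsto_lin_div d 1).mul_const Λ
    · apply Tendsto.pow
      exact Tendsto.div tendsto_const_nhds (tendsto_lin_div d (2 - r)) hd0.ne'
  have h2 : tStar r ≤ (d * Λ * ((R * a) / d) ^ r + 0) / a / (R : ℝ) ^ r + c2 := by
    apply ge_of_tendsto h1
    filter_upwards [eventually_ge_atTop r] with g hg
    have hg1 : (0 : ℝ) < g := by exact_mod_cast (by omega : 0 < g)
    refine (tStarK_bound r R a s g hr hR ha hs hrs hg).trans (le_of_eq ?_)
    rw [← hd, ← hΛ, ← hc2]
    congr 1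
    congr 1
    have hden : (0 : ℝ) < d * g + (2 - r) := by
      have h3 : (1 : ℝ) ≤ d := by
        rw [hd]; exact_mod_cast (by omega : 1 ≤ a - r + 1)
      have h4 : (r : ℝ) ≤ g := by exact_mod_cast hg
      nlinarith
    have e1 : (R : ℝ) * a / ((d * g + (2 - r)) / g) = (g : ℝ) * (R * a) / (d * g + (2 - r)) := by
      field_simp
    rw [e1]
    field_simp
  refine h2.trans (le_of_eq ?_)
  congr 1
  have hsplit : ((a : ℝ) / d) ^ r = ((a : ℝ) / d) ^ (r - 1) * ((a : ℝ) / d) := by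
    rw [← pow_succ, Nat.sub_add_cancel (by omega)]
  have e2 : ((R : ℝ) * a / d) ^ r = (R : ℝ) ^ r * (((a : ℝ) / d) ^ (r - 1) * ((a : ℝ) / d)) := by
    rw [← hsplit, ← mul_pow]
    ring
  rw [e2]
  field_simp
  ring

end Pool.Agent.K6.H30.TT
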