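import Mathlib

set_option autoImplicit false

/-!
# Turán numbers and rescaled Turán densities of hypergraphs: definitions and first facts
-/

namespace Pool.Agent.K6.H30.TT
open Finset Filter Topology

/-- The largest size of an independent set of the hypergraph on `{0, ..., n-1}` with edge set `H`:
a set of vertices is independent if it contains no edge. -/
def indepNum {n : ℕ} (H : Finset (Finset (Fin n))) : ℕ :=
  ((univ : Finset (Finset (Fin n))).filter (fun A => ∀ e ∈ H, ¬ e ⊆ A)).sup card

/-- `T(n, k, r)`: the least number of edges of an `r`-graph `H` on `n` vertices with `α(H) < k`. -/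
noncomputable def T (n k r : ℕ) : ℕ :=
  sInf {x | ∃ H : Finset (Finset (Fin n)), (∀ e ∈ H, e.card = r) ∧ indepNum H < k ∧ H.card = x}

/-- The Turán density `t(k, r) = lim_n T(n, k, r) / C(n, r)`. -/
noncomputable def t (k r : ℕ) : ℝ :=
  limUnder atTop (fun n : ℕ => (T n k r : ℝ) / (n.choose r : ℝ))

/-- The rescaled Turán density `t_*(k, r) = (k - 1)^(r - 1) / r! * t(k, r)`. -/
noncomputable def tStarK (k r : ℕ) : ℝ :=
  ((k : ℝ) - 1) ^ (r - 1) / (r.factorial : ℝ) * t k r

/-- `t_*(r) = lim_k t_*(k, r)`. -/
noncomputable def tStar (r : ℕ) : ℝ := limUnder atTop (fun k : ℕ => tStarK k r)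

lemma indepNum_lt_iff {n k : ℕ} (hk : 0 < k) (H : Finset (Finset (Fin n))) :
    indepNum H < k ↔ ∀ A : Finset (Fin n), (∀ e ∈ H, ¬ e ⊆ A) → A.card < k := by
  unfold indepNum
  rw [Finset.sup_lt_iff (by simpa using hk)]
  constructor
  · intro h A hA
    exact h A (by simp only [mem_filter, mem_univ, true_and]; exact hA)
  · intro h A hA
    simp only [mem_filter, mem_univ, true_and] at hA
    exact h A hA

lemma T_set_nonempty {n k r : ℕ} (hrk : r < k) :
    {x | ∃ H : Finset (Finset (Fin n)), (∀ e ∈ H, e.card = r) ∧ indepNum H < k ∧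
      H.card = x}.Nonempty := by
  refine ⟨(powersetCard r (univ : Finset (Fin n))).card, powersetCard r univ, ?_, ?_, rfl⟩
  · intro e he
    exact (mem_powersetCard.1 he).2
  · rw [indepNum_lt_iff (by omega)]
    intro A hA
    by_contra hcon
    have hr : r ≤ A.card := by omega
    obtain ⟨e, he, hec⟩ := Finset.exists_subset_card_eq hr
    exact hA e (mem_powersetCard.2 ⟨subset_univ _, hec⟩) he

/-- an optimal hypergraph -/
lemma T_spec {n k r : ℕ} (hrk : r < k) :
    ∃ H : Finset (Finset (Fin n)), (∀ e ∈ H, e.card = r) ∧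
      (∀ A : Finset (Fin n), (∀ e ∈ H, ¬ e ⊆ A) → A.card < k) ∧ H.card = T n k r := by
  obtain ⟨H, h1, h2, h3⟩ := Nat.sInf_mem (T_set_nonempty (n := n) hrk)
  exact ⟨H, h1, (indepNum_lt_iff (by omega) H).1 h2, h3⟩

/-- upper bounds from hypergraphs on any vertex set -/
lemma T_le {V : Type*} [Fintype V] [DecidableEq V] {k r : ℕ} (hk : 0 < k)
    (H : Finset (Finset V)) (h1 : ∀ e ∈ H, e.card = r)
    (h2 : ∀ A : Finset V, (∀ e ∈ H, ¬ e ⊆ A) → A.card < k) :
    T (Fintype.card V) k r ≤ H.card := by
  classical
  let φ : V ≃ Fin (Fintype.card V) := Fintype.equivFin V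
  apply Nat.sInf_le
  refine ⟨H.map (Finset.mapEmbedding φ.toEmbedding).toEmbedding, ?_, ?_, ?_⟩
  · intro e he
    obtain ⟨e', he', rfl⟩ := Finset.mem_map.1 he
    simp [h1 e' he']
  · rw [indepNum_lt_iff hk]
    intro A hA
    have := h2 (A.map φ.symm.toEmbedding) (fun e he hsub => by
      apply hA (e.map φ.toEmbedding) (Finset.mem_map.2 ⟨e, he, rfl⟩)
      intro x hx
      obtain ⟨y, hy, rfl⟩ := Finset.mem_map.1 hx
      have := hsub hy
      obtain ⟨z, hz, hz2⟩ := Finset.mem_map.1 this
      have : z = φ y := by
        rw [← hz2]; simp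
      rw [this] at hz
      exact hz)
    simpa using this
  · simp

lemma T_le_choose {n k r : ℕ} (hrk : r < k) : T n k r ≤ n.choose r := by
  have := T_le (V := Fin n) (k := k) (r := r) (by omega) (powersetCard r univ)
    (fun e he => (mem_powersetCard.1 he).2) (by
      intro A hA
      by_contra hcon
      have hr : r ≤ A.card := by omega
      obtain ⟨e, he, hec⟩ := Finset.exists_subset_card_eq hr
      exact hA e (mem_powersetCard.2 ⟨subset_univ _, hec⟩) he)
  simpa using this

/-- averaging -/
lemma T_average {n k r : ℕ} (hrk : r < k) :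
    (n + 1) * T n k r ≤ (n + 1 - r) * T (n + 1) k r := by
  classical
  obtain ⟨H, h1, h2, h3⟩ := T_spec (n := n + 1) hrk
  -- the link-free part at `v`
  let F : Fin (n + 1) → Finset (Finset (Fin n)) := fun v =>
    (univ : Finset (Finset (Fin n))).filter (fun e => e.map (Fin.succAboveEmb v) ∈ H)
  have hF : ∀ v, T n k r ≤ (F v).card := by
    intro v
    have := T_le (V := Fin n) (k := k) (r := r) (by omega) (F v) (by
      intro e he
      simp only [F, mem_filter, mem_univ, true_and] at he
      have := h1 _ he
      simpa using this) (by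
      intro A hA
      have := h2 (A.map (Fin.succAboveEmb v)) (by
        intro e he hsub
        -- e is the image of a set
        let e' : Finset (Fin n) := univ.filter (fun x => Fin.succAbove v x ∈ e)
        have hee : e'.map (Fin.succAboveEmb v) = e := by
          ext y
          simp only [Finset.mem_map, Fin.coe_succAboveEmb, e', mem_filter, mem_univ, true_and]
          constructor
          · rintro ⟨x, hx, rfl⟩; exact hx
          · intro hy
            obtain ⟨x, hx, hx2⟩ := Finset.mem_map.1 (hsub hy)
            refine ⟨x, ?_, hx2⟩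
            have : Fin.succAbove v x = y := hx2
            rw [this]; exact hy
        apply hA e'
        · simp only [F, mem_filter, mem_univ, true_and]
          rw [hee]; exact he
        · intro x hx
          have hx' : Fin.succAboveEmb v x ∈ e := by
            rw [← hee]; exact Finset.mem_map_of_mem _ hx
          have := hsub hx'
          simpa using this)
      simpa using this)
    simpa using this
  have hsum : ∑ v, (F v).card ≤ (n + 1 - r) * H.card := by
    -- F v injects into {e ∈ H | v ∉ e}
    have hFv : ∀ v, (F v).card ≤ (H.filter (fun e => v ∉ e)).card := by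
      intro v
      apply Finset.card_le_card_of_injOn (fun e => e.map (Fin.succAboveEmb v))
      · intro e he
        simp only [F, coe_filter, mem_univ, true_and, Set.mem_ofPred_eq] at he
        simp only [coe_filter, Set.mem_ofPred_eq]
        refine ⟨he, ?_⟩
        simp only [Finset.mem_map, Fin.coe_succAboveEmb, not_exists, not_and]
        intro x _ hx
        exact Fin.succAbove_ne v x hx
      · intro a _ b _ hab
        exact Finset.map_injective _ hab
    calc ∑ v, (F v).card ≤ ∑ v, (H.filter (fun e => v ∉ e)).card := sum_le_sum fun v _ => hFv v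
      _ = ∑ v, ∑ e ∈ H, (if v ∉ e then 1 else 0) := by
          refine sum_congr rfl fun v _ => ?_
          rw [card_filter]
      _ = ∑ e ∈ H, ∑ v, (if v ∉ e then 1 else 0) := sum_comm
      _ = ∑ e ∈ H, (n + 1 - r) := by
          refine sum_congr rfl fun e he => ?_
          rw [← card_filter]
          have : (univ.filter (fun v => v ∉ e)) = eᶜ := by ext v; simp
          rw [this, card_compl, Fintype.card_fin, h1 e he]
      _ = (n + 1 - r) * H.card := by rw [sum_const, smul_eq_mul, mul_comm]
  calc (n + 1) * T n k r = ∑ v : Fin (n + 1), T n k r := by simp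
    _ ≤ ∑ v, (F v).card := sum_le_sum fun v _ => hF v
    _ ≤ (n + 1 - r) * H.card := hsum
    _ = _ := by rw [h3]

lemma ratio_mono {k r : ℕ} (hrk : r < k) :
    Monotone (fun n : ℕ => (T n k r : ℝ) / (n.choose r : ℝ)) := by
  apply monotone_nat_of_le_succ
  intro n
  rcases lt_or_ge n r with h | h
  · simp only [Nat.choose_eq_zero_of_lt h, Nat.cast_zero, div_zero]
    positivity
  · have h1 : 0 < n.choose r := Nat.choose_pos h
    have h2 : 0 < (n + 1).choose r := Nat.choose_pos (by omega)
    rw [div_le_div_iff₀ (by exact_mod_cast h1) (by exact_mod_cast h2)]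
    have h3 := T_average (n := n) (k := k) hrk
    have h4 : (n + 1).choose r * (n + 1 - r) = (n + 1) * n.choose r := by
      have h5 := Nat.choose_mul_succ_eq n r
      rw [← h5, mul_comm]
    have h6 : (T n k r) * ((n + 1).choose r) * (n + 1) ≤ T (n + 1) k r * n.choose r * (n + 1) := by
      calc (T n k r) * ((n + 1).choose r) * (n + 1)
          = ((n + 1) * T n k r) * (n + 1).choose r := by ring
        _ ≤ ((n + 1 - r) * T (n + 1) k r) * (n + 1).choose r := Nat.mul_le_mul_right _ h3
        _ = T (n + 1) k r * ((n + 1).choose r * (n + 1 - r)) := by ring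
        _ = T (n + 1) k r * n.choose r * (n + 1) := by rw [h4]; ring
    have h7 := Nat.le_of_mul_le_mul_right h6 (by omega)
    exact_mod_cast h7

lemma ratio_le_one {k r : ℕ} (hrk : r < k) (n : ℕ) :
    (T n k r : ℝ) / (n.choose r : ℝ) ≤ 1 := by
  apply div_le_one_of_le₀
  · exact_mod_cast T_le_choose hrk
  · positivity

/-- the Turán density exists -/
lemma tendsto_t {k r : ℕ} (hrk : r < k) :
    Tendsto (fun n : ℕ => (T n k r : ℝ) / (n.choose r : ℝ)) atTop (𝓝 (t k r)) := by
  have h := tendsto_atTop_ciSup (ratio_mono hrk)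
    ⟨1, by rintro x ⟨n, rfl⟩; exact ratio_le_one hrk n⟩
  have := h.limUnder_eq
  unfold t
  rw [this]
  exact h

lemma t_nonneg {k r : ℕ} (hrk : r < k) : 0 ≤ t k r :=
  ge_of_tendsto' (tendsto_t hrk) (fun n => by positivity)

/-- the ratio at `n` is at most the density -/
lemma ratio_le_t {k r : ℕ} (hrk : r < k) (n : ℕ) :
    (T n k r : ℝ) / (n.choose r : ℝ) ≤ t k r :=
  (ratio_mono hrk).ge_of_tendsto (tendsto_t hrk) n

/-- the density is nonincreasing in `k` -/
lemma t_anti {k k' r : ℕ} (hrk : r < k) (hkk : k ≤ k') : t k' r ≤ t k r := by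
  apply le_of_tendsto_of_tendsto' (tendsto_t (by omega)) (tendsto_t hrk)
  intro n
  apply div_le_div_of_nonneg_right _ (by positivity)
  obtain ⟨H, h1, h2, h3⟩ := T_spec (n := n) hrk
  have := T_le (V := Fin n) (k := k') (r := r) (by omega) H h1
    (fun A hA => lt_of_lt_of_le (h2 A hA) hkk)
  rw [h3] at this
  simp only [Fintype.card_fin] at this
  exact_mod_cast this

end Pool.Agent.K6.H30.TT
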