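import Pool.Agent.K6.H30.TT.Asym

set_option autoImplicit false

namespace Pool.Agent.K6.H30.TT
open Finset Filter Topology

lemma second_le (r L : ℕ) (hr : 2 ≤ r) (hL : 1 ≤ L) :
    (((149 * r * L) * (r ^ 2 * L)).choose ((r + 1) / 2) : ℝ) * (((r + 1) / 2 : ℕ) : ℝ) ^ r /
      ((r.factorial : ℝ) * ((r ^ 2 * L : ℕ) : ℝ) * ((149 * r * L : ℕ) : ℝ) ^ r) ≤ 1 := by
  set s : ℕ := (r + 1) / 2 with hs
  set f : ℕ := r / 2 with hf
  set R : ℕ := 149 * r * L with hR
  set a : ℕ := r ^ 2 * L with ha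
  have hsf : r = s + f := by omega
  have hs1 : s ≤ f + 1 := by omega
  have hf1 : 1 ≤ f := by omega
  have hR1 : 1 ≤ R := by
    rw [hR]; exact Nat.mul_pos (Nat.mul_pos (by norm_num) (by omega)) hL
  have ha1 : 1 ≤ a := by
    rw [ha]; exact Nat.mul_pos (pow_pos (by omega) 2) hL
  have hRR : (0 : ℝ) < R := by exact_mod_cast hR1
  have haR : (1 : ℝ) ≤ a := by exact_mod_cast ha1
  have ha0 : (0 : ℝ) < a := by linarith
  have hrR : (0 : ℝ) < r := by exact_mod_cast (by omega : 0 < r)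
  have hLR : (0 : ℝ) < L := by exact_mod_cast hL
  rw [div_le_one (by positivity)]
  have h1 : ((R * a).choose s : ℝ) ≤ ((R : ℝ) * a) ^ s / (s.factorial : ℝ) := by
    have := Nat.choose_le_pow_div (α := ℝ) s (R * a)
    push_cast at this
    exact this
  have h2 : (s : ℝ) ^ s / (s.factorial : ℝ) ≤ Real.exp s :=
    Real.pow_div_factorial_le_exp (s : ℝ) (by positivity) s
  have h3 : (r : ℝ) ^ r / (r.factorial : ℝ) ≤ Real.exp r :=
    Real.pow_div_factorial_le_exp (r : ℝ) (by positivity) r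
  have h3' : (r : ℝ) ^ r * Real.exp (-(r : ℝ)) ≤ (r.factorial : ℝ) := by
    rw [div_le_iff₀ (by positivity)] at h3
    calc (r : ℝ) ^ r * Real.exp (-(r : ℝ)) ≤ (Real.exp r * (r.factorial : ℝ)) * Real.exp (-(r : ℝ)) :=
          mul_le_mul_of_nonneg_right h3 (by positivity)
      _ = (r.factorial : ℝ) * (Real.exp r * Real.exp (-(r : ℝ))) := by ring
      _ = (r.factorial : ℝ) := by rw [← Real.exp_add, add_neg_cancel, Real.exp_zero, mul_one]
  -- the numerical core
  have h4 : Real.exp 5 ≤ 149 := by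
    have h5 : Real.exp 5 = Real.exp 1 ^ 5 := by
      rw [← Real.exp_nat_mul]; norm_num
    rw [h5]
    calc Real.exp 1 ^ 5 ≤ 2.7182818286 ^ 5 :=
          pow_le_pow_left₀ (Real.exp_pos 1).le Real.exp_one_lt_d9.le 5
      _ ≤ 149 := by norm_num
  have h6 : Real.exp ((s : ℝ) + r) ≤ (149 : ℝ) ^ f := by
    calc Real.exp ((s : ℝ) + r) ≤ Real.exp (f * 5) := by
          apply Real.exp_le_exp.2
          have : s + r ≤ f * 5 := by omega
          exact_mod_cast this
      _ = Real.exp 5 ^ f := by rw [← Real.exp_nat_mul]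
      _ ≤ 149 ^ f := pow_le_pow_left₀ (Real.exp_pos 5).le h4 f
  have h7 : ((a : ℝ) * s) ^ f * Real.exp ((s : ℝ) + r) ≤ (r : ℝ) ^ r * (R : ℝ) ^ f := by
    have h8 : ((a : ℝ) * s) ^ f ≤ ((r : ℝ) ^ 2) ^ f * ((r : ℝ) * L) ^ f := by
      rw [← mul_pow]
      apply pow_le_pow_left₀ (by positivity)
      have : (s : ℝ) ≤ r := by exact_mod_cast (by omega : s ≤ r)
      rw [ha]; push_cast
      have h9 : (0 : ℝ) ≤ (r : ℝ) ^ 2 * L := by positivity
      calc (r : ℝ) ^ 2 * L * s ≤ (r : ℝ) ^ 2 * L * r := mul_le_mul_of_nonneg_left this h9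
        _ = (r : ℝ) ^ 2 * (r * L) := by ring
    have h10 : ((r : ℝ) ^ 2) ^ f ≤ (r : ℝ) ^ r := by
      rw [← pow_mul]
      apply pow_le_pow_right₀ (by exact_mod_cast (by omega : 1 ≤ r)) (by omega)
    calc ((a : ℝ) * s) ^ f * Real.exp ((s : ℝ) + r)
        ≤ (((r : ℝ) ^ 2) ^ f * ((r : ℝ) * L) ^ f) * 149 ^ f :=
          mul_le_mul h8 h6 (by positivity) (by positivity)
      _ ≤ ((r : ℝ) ^ r * ((r : ℝ) * L) ^ f) * 149 ^ f := by
          apply mul_le_mul_of_nonneg_right _ (by positivity)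
          exact mul_le_mul_of_nonneg_right h10 (by positivity)
      _ = (r : ℝ) ^ r * (149 * r * L) ^ f := by
          rw [mul_pow, mul_pow, mul_pow]; ring
      _ = (r : ℝ) ^ r * (R : ℝ) ^ f := by rw [hR]; push_cast; ring
  have h11 : (a : ℝ) ^ s ≤ a * (a : ℝ) ^ f := by
    rw [← pow_succ']
    exact pow_le_pow_right₀ haR hs1
  calc ((R * a).choose s : ℝ) * (s : ℝ) ^ r
      ≤ (((R : ℝ) * a) ^ s / (s.factorial : ℝ)) * (s : ℝ) ^ r :=
        mul_le_mul_of_nonneg_right h1 (by positivity)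
    _ = ((R : ℝ) * a) ^ s * (s : ℝ) ^ f * ((s : ℝ) ^ s / (s.factorial : ℝ)) := by
        rw [show (s : ℝ) ^ r = (s : ℝ) ^ s * (s : ℝ) ^ f by rw [← pow_add, ← hsf]]
        ring
    _ ≤ ((R : ℝ) * a) ^ s * (s : ℝ) ^ f * Real.exp s :=
        mul_le_mul_of_nonneg_left h2 (by positivity)
    _ = (R : ℝ) ^ s * (a : ℝ) ^ s * ((s : ℝ) ^ f * Real.exp s) := by rw [mul_pow]; ring
    _ ≤ (R : ℝ) ^ s * (a * (a : ℝ) ^ f) * ((s : ℝ) ^ f * Real.exp s) := by
        apply mul_le_mul_of_nonneg_right _ (by positivity)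
        exact mul_le_mul_of_nonneg_left h11 (by positivity)
    _ = ((R : ℝ) ^ s * a * Real.exp (-(r : ℝ))) *
        (((a : ℝ) * s) ^ f * Real.exp ((s : ℝ) + r)) := by
        rw [mul_pow]
        have : Real.exp (s : ℝ) = Real.exp (-(r : ℝ)) * Real.exp ((s : ℝ) + r) := by
          rw [← Real.exp_add]; ring_nf
        rw [this]; ring
    _ ≤ ((R : ℝ) ^ s * a * Real.exp (-(r : ℝ))) * ((r : ℝ) ^ r * (R : ℝ) ^ f) :=
        mul_le_mul_of_nonneg_left h7 (by positivity)
    _ = ((r : ℝ) ^ r * Real.exp (-(r : ℝ))) * (a * ((R : ℝ) ^ s * (R : ℝ) ^ f)) := by ring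
    _ = ((r : ℝ) ^ r * Real.exp (-(r : ℝ))) * (a * (R : ℝ) ^ r) := by
        rw [← pow_add, ← hsf]
    _ ≤ (r.factorial : ℝ) * (a * (R : ℝ) ^ r) :=
        mul_le_mul_of_nonneg_right h3' (by positivity)
    _ = _ := by ring

/-- **The bound.** -/
theorem tStar_le_log (r : ℕ) (hr : 3 ≤ r) :
    tStar r ≤ Real.log r + Real.log (Real.log r) + 19 := by
  set y : ℝ := Real.log r with hy
  have hrR : (3 : ℝ) ≤ r := by exact_mod_cast hr
  have hy1 : 1 ≤ y := by
    have h1 : Real.exp 1 ≤ r := by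
      have := Real.exp_one_lt_d9
      linarith
    rw [hy, Real.le_log_iff_exp_le (by linarith)]
    exact h1
  set L : ℕ := ⌈y⌉₊ + 1 with hL
  have hL1 : y ≤ (L : ℝ) - 1 := by
    rw [hL]; push_cast
    have := Nat.le_ceil y
    linarith
  have hL2 : (L : ℝ) ≤ 3 * y := by
    rw [hL]; push_cast
    have := Nat.ceil_lt_add_one (show 0 ≤ y by linarith)
    linarith
  have hLpos : 1 ≤ L := by omega
  set R : ℕ := 149 * r * L with hR
  set a : ℕ := r ^ 2 * L with ha
  set s : ℕ := (r + 1) / 2 with hs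
  have hra : r ≤ a := by
    rw [ha]
    calc r = r * 1 := by ring
      _ ≤ r ^ 2 * L := Nat.mul_le_mul (by nlinarith) hLpos
  have hR1 : 1 ≤ R := by
    rw [hR]; exact Nat.mul_pos (Nat.mul_pos (by norm_num) (by omega)) hLpos
  have hsRa : s ≤ R * a := by
    have : a ≤ R * a := Nat.le_mul_of_pos_left a hR1
    omega
  have key := tStar_le_param r R a s (by omega) hR1 hra hsRa (by omega)
  have h2 : ((R * a).choose s : ℝ) * (s : ℝ) ^ r / ((r.factorial : ℝ) * a * (R : ℝ) ^ r) ≤ 1 :=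
    second_le r L (by omega) hLpos
  set d : ℝ := ((a - r + 1 : ℕ) : ℝ) with hd
  have hdval : d = (a : ℝ) - (r - 1) := by
    rw [hd]
    push_cast [Nat.cast_sub hra]
    ring
  have haR : (0 : ℝ) < a := by exact_mod_cast (by omega : 0 < a)
  have hLR : (0 : ℝ) < L := by exact_mod_cast hLpos
  have haval : (a : ℝ) = (r : ℝ) ^ 2 * L := by rw [ha]; push_cast; ring
  have hd0 : 0 < d := by rw [hd]; positivity
  have hL1' : 0 < (L : ℝ) - 1 := by linarith
  -- Bernoulli
  have hbern : 1 - 1 / (L : ℝ) ≤ (d / a) ^ (r - 1) := by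
    have h3 : d / a = 1 + (-((r : ℝ) - 1) / a) := by
      rw [hdval]; field_simp; ring
    have h4 : ((r : ℝ) - 1) / a ≤ 1 := by
      rw [div_le_one haR]
      have : (r : ℝ) ≤ a := by exact_mod_cast hra
      linarith
    have h5 := one_add_mul_le_pow (a := (-((r : ℝ) - 1) / a)) (by rw [neg_div]; linarith) (r - 1)
    rw [h3]
    refine le_trans ?_ h5
    have h6 : ((r - 1 : ℕ) : ℝ) = (r : ℝ) - 1 := by
      rw [Nat.cast_sub (by omega)]; simp
    rw [h6]
    have h7 : ((r : ℝ) - 1) * (((r : ℝ) - 1) / a) ≤ 1 / L := by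
      rw [haval, ← mul_div_assoc, div_le_div_iff₀ (by positivity) hLR]
      nlinarith
    have h8 : ((r : ℝ) - 1) * (-((r : ℝ) - 1) / a) = -(((r : ℝ) - 1) * (((r : ℝ) - 1) / a)) := by
      ring
    rw [h8]
    linarith
  have hβ : ((a : ℝ) / d) ^ (r - 1) ≤ 1 + 1 / y := by
    have h3 : ((a : ℝ) / d) ^ (r - 1) = 1 / (d / a) ^ (r - 1) := by
      rw [div_pow, div_pow, one_div_div]
    have h4 : 0 < 1 - 1 / (L : ℝ) := by
      rw [sub_pos, div_lt_one hLR]; linarith
    rw [h3]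
    calc 1 / (d / a) ^ (r - 1) ≤ 1 / (1 - 1 / (L : ℝ)) :=
          one_div_le_one_div_of_le h4 hbern
      _ = 1 + 1 / ((L : ℝ) - 1) := by
          have : (L : ℝ) ≠ 0 := hLR.ne'
          have h9 : (L : ℝ) - 1 ≠ 0 := hL1'.ne'
          field_simp
          ring
      _ ≤ 1 + 1 / y := by
          have := one_div_le_one_div_of_le (by linarith : (0 : ℝ) < y) hL1
          linarith
  have hβ1 : 1 ≤ (a : ℝ) / d := by
    rw [le_div_iff₀ hd0, one_mul, hdval]
    linarith
  have hβ2 : (a : ℝ) / d ≤ 2 := by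
    have h3 : (a : ℝ) / d ≤ ((a : ℝ) / d) ^ (r - 1) := le_self_pow₀ hβ1 (by omega)
    have h4 : 1 / y ≤ 1 := by rw [div_le_one (by linarith)]; exact hy1
    linarith
  have hRval : (R : ℝ) = 149 * r * L := by rw [hR]; push_cast; ring
  have hlog : Real.log ((R : ℝ) * a / d) ≤ 7 + y + Real.log y := by
    have h3 : (R : ℝ) * a / d ≤ 894 * (r * y) := by
      rw [mul_div_assoc]
      calc (R : ℝ) * (a / d) ≤ (R : ℝ) * 2 := mul_le_mul_of_nonneg_left hβ2 (by positivity)
        _ = 298 * (r * L) := by rw [hRval]; ring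
        _ ≤ 298 * (r * (3 * y)) := by
            have : (0 : ℝ) ≤ r := by positivity
            have h9 := mul_le_mul_of_nonneg_left hL2 this
            linarith
        _ = 894 * (r * y) := by ring
    have hRpos : (0 : ℝ) < R := by exact_mod_cast hR1
    have h4 : Real.log ((R : ℝ) * a / d) ≤ Real.log (894 * (r * y)) :=
      Real.log_le_log (by positivity) h3
    have h5 : Real.log (894 * (r * y)) = Real.log 894 + (y + Real.log y) := by
      rw [Real.log_mul (by norm_num) (by positivity), Real.log_mul (by positivity) (by linarith)]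
    have h6 : Real.log 894 ≤ 7 := by
      rw [Real.log_le_iff_le_exp (by norm_num)]
      have h7 : Real.exp 7 = Real.exp 1 ^ 7 := by
        rw [← Real.exp_nat_mul]; norm_num
      rw [h7]
      calc (894 : ℝ) ≤ 2.7182818283 ^ 7 := by norm_num
        _ ≤ Real.exp 1 ^ 7 := pow_le_pow_left₀ (by norm_num) Real.exp_one_gt_d9.le 7
    linarith
  have hlogy : Real.log y ≤ y := by
    have := Real.log_le_sub_one_of_pos (show 0 < y by linarith)
    linarith
  have hlogy0 : 0 ≤ Real.log y := Real.log_nonneg hy1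
  have hfirst : ((a : ℝ) / d) ^ (r - 1) * (1 + Real.log ((R : ℝ) * a / d))
      ≤ y + Real.log y + 18 := by
    calc ((a : ℝ) / d) ^ (r - 1) * (1 + Real.log ((R : ℝ) * a / d))
        ≤ (1 + 1 / y) * (1 + (7 + y + Real.log y)) := by
          apply mul_le_mul hβ (by linarith) _ (by positivity)
          have : 0 ≤ Real.log ((R : ℝ) * a / d) := by
            apply Real.log_nonneg
            rw [mul_div_assoc]
            have h9 : (1 : ℝ) ≤ R := by exact_mod_cast hR1
            nlinarith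
          linarith
      _ = y + Real.log y + 9 + (8 / y + Real.log y / y) := by
          field_simp
          ring
      _ ≤ y + Real.log y + 9 + (8 + 1) := by
          have h3 : 8 / y ≤ 8 := by rw [div_le_iff₀ (by linarith)]; linarith
          have h4 : Real.log y / y ≤ 1 := by rw [div_le_one (by linarith)]; exact hlogy
          linarith
      _ = y + Real.log y + 18 := by ring
  linarith

end Pool.Agent.K6.H30.TT
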