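import Pool.Agent.K6.H30.TT.Defs

set_option autoImplicit false

/-!
# The limit `t_*(r) = lim_k t_*(k, r) = inf_k t_*(k, r)`
-/

namespace Pool.Agent.K6.H30.TT
open Finset Filter Topology

lemma tendsto_choose_div_pow (r : ℕ) :
    Tendsto (fun n : ℕ => (n.choose r : ℝ) / (n : ℝ) ^ r) atTop (𝓝 (1 / (r.factorial : ℝ))) := by
  have h := isEquivalent_choose r
  have h2 : Tendsto (fun n : ℕ => (n.choose r : ℝ) / ((n : ℝ) ^ r / (r.factorial : ℝ))) atTop
      (𝓝 1) := by
    rw [Asymptotics.isEquivalent_iff_tendsto_one] at h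
    · exact h
    · filter_upwards [eventually_gt_atTop 0] with n hn
      positivity
  have h3 := h2.mul_const (1 / (r.factorial : ℝ))
  rw [one_mul] at h3
  refine h3.congr' ?_
  filter_upwards [eventually_gt_atTop 0] with n hn
  field_simp

/-- upper bounds of the density from the multiples of `m` -/
lemma t_le_of_multiples {k r m : ℕ} (hrk : r < k) (hm : 0 < m) (B : ℝ)
    (h : ∀ N : ℕ, (T (m * N) k r : ℝ) ≤ B * ((m * N : ℕ) : ℝ) ^ r) :
    t k r ≤ (r.factorial : ℝ) * B := by
  have h1 : Tendsto (fun N : ℕ => m * N) atTop atTop :=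
    tendsto_id.const_mul_atTop' hm
  have h2 := (tendsto_t hrk).comp h1
  have h3 := (tendsto_choose_div_pow r).comp h1
  have h4 : Tendsto (fun N : ℕ => B * (((m * N).choose r : ℝ) / (((m * N : ℕ) : ℝ)) ^ r)⁻¹) atTop
      (𝓝 (B * (1 / (r.factorial : ℝ))⁻¹)) :=
    (h3.inv₀ (by positivity)).const_mul B
  rw [one_div, inv_inv, mul_comm] at h4
  refine le_of_tendsto_of_tendsto h2 h4 ?_
  filter_upwards [h1.eventually_ge_atTop r] with N hN
  have h5 : 0 < (m * N).choose r := Nat.choose_pos hN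
  simp only [Function.comp]
  rw [inv_div, ← mul_div_assoc]
  apply div_le_div_of_nonneg_right (h N) (by positivity)

/-- disjoint unions of `m` copies -/
lemma T_union {n a r m : ℕ} (hra : r < a + 1) :
    T (m * n) (m * a + 1) r ≤ m * T n (a + 1) r := by
  classical
  obtain ⟨H, h1, h2, h3⟩ := T_spec (n := n) hra
  let f : Fin m × Finset (Fin n) → Finset (Fin m × Fin n) := fun p =>
    p.2.map ⟨fun x => (p.1, x), fun x y hxy => by simpa using hxy⟩
  have := T_le (V := Fin m × Fin n) (k := m * a + 1) (r := r) (by omega)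
    ((univ ×ˢ H).image f) (by
      intro e he
      obtain ⟨p, hp, rfl⟩ := Finset.mem_image.1 he
      simp only [f, card_map]
      exact h1 _ (Finset.mem_product.1 hp).2) (by
      intro A hA
      have hsec : ∀ i : Fin m, (univ.filter (fun x : Fin n => (i, x) ∈ A)).card ≤ a := by
        intro i
        have := h2 (univ.filter (fun x : Fin n => (i, x) ∈ A)) (by
          intro e he hsub
          apply hA (f (i, e)) (Finset.mem_image.2 ⟨(i, e), Finset.mem_product.2 ⟨mem_univ _, he⟩, rfl⟩)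
          intro y hy
          simp only [f, Finset.mem_map, Function.Embedding.coeFn_mk] at hy
          obtain ⟨x, hx, rfl⟩ := hy
          have h7 := hsub hx
          rw [mem_filter] at h7
          exact h7.2)
        omega
      have hcard : A.card = ∑ i : Fin m, (univ.filter (fun x : Fin n => (i, x) ∈ A)).card := by
        have h4 := Finset.card_eq_sum_card_fiberwise (s := A) (t := (univ : Finset (Fin m)))
          (f := Prod.fst) (fun x _ => mem_univ _)
        rw [h4]
        refine sum_congr rfl fun i _ => ?_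
        symm
        apply Finset.card_bij (fun x _ => (i, x))
        · intro x hx
          simp only [mem_filter, mem_univ, true_and] at hx
          simp [hx]
        · intro x _ y _ hxy
          simpa using hxy
        · rintro ⟨j, x⟩ hx
          simp only [mem_filter] at hx
          obtain ⟨hx1, hx2⟩ := hx
          subst hx2
          exact ⟨x, by simpa using hx1, rfl⟩
      rw [hcard]
      calc ∑ i : Fin m, (univ.filter (fun x : Fin n => (i, x) ∈ A)).card
          ≤ ∑ i : Fin m, a := sum_le_sum fun i _ => hsec i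
        _ = m * a := by simp
        _ < m * a + 1 := by omega)
  rw [Fintype.card_prod, Fintype.card_fin, Fintype.card_fin] at this
  refine this.trans (Finset.card_image_le.trans ?_)
  rw [card_product, card_univ, Fintype.card_fin, h3]

lemma t_union {a r m : ℕ} (hra : r < a + 1) (hm : 0 < m) :
    t (m * a + 1) r * (m : ℝ) ^ r ≤ m * t (a + 1) r := by
  have h1 : Tendsto (fun N : ℕ => m * N) atTop atTop :=
    tendsto_id.const_mul_atTop' hm
  have hra' : r < m * a + 1 := by
    have : a ≤ m * a := Nat.le_mul_of_pos_left a hm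
    omega
  have h2 := (tendsto_t hra').comp h1
  have h3 := (tendsto_choose_div_pow r).comp h1
  have h4 := tendsto_choose_div_pow r
  have h5 := tendsto_t hra
  -- ratio (m N) * C(mN, r)/(mN)^r * m^r ≤ m * ratio N * C(N,r)/N^r
  have h6 := (h2.mul h3).mul_const ((m : ℝ) ^ r)
  have h7 := (h5.mul h4).const_mul (m : ℝ)
  have h8 := le_of_tendsto_of_tendsto h6 h7 (by
    filter_upwards [eventually_ge_atTop (max r 1)] with N hN
    have hNr : r ≤ N := le_trans (le_max_left _ _) hN
    have hN1 : 0 < N := lt_of_lt_of_le one_pos (le_trans (le_max_right _ _) hN)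
    have hmN : r ≤ m * N := hNr.trans (Nat.le_mul_of_pos_left N hm)
    have c1 : 0 < N.choose r := Nat.choose_pos hNr
    have c2 : 0 < (m * N).choose r := Nat.choose_pos hmN
    simp only [Function.comp]
    have e1 : (T (m * N) (m * a + 1) r : ℝ) / ((m * N).choose r : ℝ) *
        (((m * N).choose r : ℝ) / (((m * N : ℕ) : ℝ)) ^ r) * (m : ℝ) ^ r
        = (T (m * N) (m * a + 1) r : ℝ) / (N : ℝ) ^ r := by
      push_cast
      rw [mul_pow]
      field_simp
    have e2 : (m : ℝ) * ((T N (a + 1) r : ℝ) / (N.choose r : ℝ) *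
        ((N.choose r : ℝ) / (N : ℝ) ^ r)) = (m : ℝ) * (T N (a + 1) r : ℝ) / (N : ℝ) ^ r := by
      field_simp
    rw [e1, e2]
    apply div_le_div_of_nonneg_right _ (by positivity)
    exact_mod_cast T_union (n := N) (m := m) hra)
  have hf : (0 : ℝ) < (r.factorial : ℝ) := by positivity
  have h9 : t (m * a + 1) r * (1 / (r.factorial : ℝ)) * (m : ℝ) ^ r
      = (t (m * a + 1) r * (m : ℝ) ^ r) * (1 / (r.factorial : ℝ)) := by ring
  have h10 : (m : ℝ) * (t (a + 1) r * (1 / (r.factorial : ℝ)))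
      = (m * t (a + 1) r) * (1 / (r.factorial : ℝ)) := by ring
  rw [h9, h10] at h8
  exact le_of_mul_le_mul_right h8 (by positivity)

lemma tStarK_nonneg {k r : ℕ} (hr : 1 ≤ k) (hrk : r < k) : 0 ≤ tStarK k r := by
  unfold tStarK
  have : (0 : ℝ) ≤ (k : ℝ) - 1 := by
    have : (1 : ℝ) ≤ (k : ℝ) := by exact_mod_cast hr
    linarith
  have := t_nonneg hrk
  positivity

/-- all large `k` are almost as good as a given one -/
lemma tStarK_le {a b r : ℕ} (hr : 1 ≤ r) (hra : r < a + 1) (m : ℕ) (hm : 0 < m) (h1 : m * a ≤ b)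
    (h2 : b ≤ (m + 1) * a) :
    tStarK (b + 1) r ≤ (((m : ℝ) + 1) / m) ^ (r - 1) * tStarK (a + 1) r := by
  have ha : 1 ≤ a := by omega
  have hra' : r < m * a + 1 := by
    have : a ≤ m * a := Nat.le_mul_of_pos_left a hm
    omega
  have h3 : t (b + 1) r ≤ t (m * a + 1) r := t_anti hra' (by omega)
  have h4 := t_union hra hm
  have hmR : (0 : ℝ) < m := by exact_mod_cast hm
  have h5 : t (m * a + 1) r ≤ t (a + 1) r / (m : ℝ) ^ (r - 1) := by
    rw [le_div_iff₀ (by positivity)]
    have h6 : (m : ℝ) ^ r = m * (m : ℝ) ^ (r - 1) := by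
      rw [← pow_succ', Nat.sub_add_cancel hr]
    rw [h6] at h4
    have h7 : m * (t (m * a + 1) r * (m : ℝ) ^ (r - 1)) ≤ m * t (a + 1) r := by
      calc m * (t (m * a + 1) r * (m : ℝ) ^ (r - 1))
          = t (m * a + 1) r * (m * (m : ℝ) ^ (r - 1)) := by ring
        _ ≤ _ := h4
    exact le_of_mul_le_mul_left h7 hmR
  unfold tStarK
  have h8 : (((b + 1 : ℕ) : ℝ) - 1) = (b : ℝ) := by push_cast; ring
  have h9 : (((a + 1 : ℕ) : ℝ) - 1) = (a : ℝ) := by push_cast; ring
  rw [h8, h9]
  have h10 : (b : ℝ) ≤ ((m : ℝ) + 1) * a := by exact_mod_cast h2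
  have h11 := t_nonneg (k := b + 1) (r := r) (by omega)
  have h12 : (b : ℝ) ^ (r - 1) ≤ (((m : ℝ) + 1) * a) ^ (r - 1) :=
    pow_le_pow_left₀ (by positivity) h10 _
  calc (b : ℝ) ^ (r - 1) / (r.factorial : ℝ) * t (b + 1) r
      ≤ (((m : ℝ) + 1) * a) ^ (r - 1) / (r.factorial : ℝ) * (t (a + 1) r / (m : ℝ) ^ (r - 1)) := by
        apply mul_le_mul _ (h3.trans h5) h11 (by positivity)
        exact div_le_div_of_nonneg_right h12 (by positivity)
    _ = _ := by
        rw [mul_pow, div_pow]
        ring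

/-- the infimum of the `t_*(k, r)`, `k > r` -/
noncomputable def tInf (r : ℕ) : ℝ := ⨅ k : {k : ℕ // r < k}, tStarK k.1 r

lemma tInf_bdd (r : ℕ) : BddBelow (Set.range (fun k : {k : ℕ // r < k} => tStarK k.1 r)) :=
  ⟨0, by rintro x ⟨k, rfl⟩; exact tStarK_nonneg (by have := k.2; omega) k.2⟩

lemma tInf_le {k r : ℕ} (hrk : r < k) : tInf r ≤ tStarK k r :=
  ciInf_le (tInf_bdd r) ⟨k, hrk⟩

/-- `t_*(k, r)` converges to its infimum -/
lemma tendsto_tInf {r : ℕ} (hr : 1 ≤ r) :
    Tendsto (fun k : ℕ => tStarK k r) atTop (𝓝 (tInf r)) := by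
  rw [Metric.tendsto_atTop]
  intro ε hε
  have hne : Nonempty {k : ℕ // r < k} := ⟨⟨r + 1, by omega⟩⟩
  obtain ⟨⟨k₀, hk₀⟩, h0⟩ := exists_lt_of_ciInf_lt (show tInf r < tInf r + ε / 2 by linarith)
  simp only at h0
  obtain ⟨a, rfl⟩ : ∃ a, k₀ = a + 1 := ⟨k₀ - 1, by omega⟩
  have ha : 1 ≤ a := by omega
  -- choose m large
  have hlim : Tendsto (fun m : ℕ => (((m : ℝ) + 1) / m) ^ (r - 1) * tStarK (a + 1) r) atTop
      (𝓝 (1 ^ (r - 1) * tStarK (a + 1) r)) := by
    apply Tendsto.mul_const
    apply Tendsto.pow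
    have : Tendsto (fun m : ℕ => 1 + 1 / (m : ℝ)) atTop (𝓝 (1 + 0)) :=
      tendsto_const_nhds.add tendsto_one_div_atTop_nhds_zero_nat
    rw [add_zero] at this
    refine this.congr' ?_
    filter_upwards [eventually_gt_atTop 0] with m hm
    have : (m : ℝ) ≠ 0 := by positivity
    field_simp
  rw [one_pow, one_mul] at hlim
  have h1 : ∀ᶠ m : ℕ in atTop, (((m : ℝ) + 1) / m) ^ (r - 1) * tStarK (a + 1) r < tInf r + ε := by
    apply hlim.eventually_lt_const
    linarith
  obtain ⟨M, hM⟩ := (h1.and (eventually_gt_atTop 0)).exists_forall_of_atTop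
  refine ⟨M * a + 1, fun k hk => ?_⟩
  obtain ⟨b, rfl⟩ : ∃ b, k = b + 1 := ⟨k - 1, by omega⟩
  have hb : M * a ≤ b := by omega
  have hM0 : 0 < M := (hM M le_rfl).2
  have hm1 : M ≤ b / a := (Nat.le_div_iff_mul_le (by omega)).2 hb
  have h2 := tStarK_le hr hk₀ (b / a) (by omega) (Nat.div_mul_le_self b a)
    (by
      have h8 := Nat.div_add_mod b a
      have h9 := Nat.mod_lt b (show 0 < a by omega)
      nlinarith)
    (b := b)
  have h3 := (hM (b / a) hm1).1
  have hrb : r < b + 1 := by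
    have : a ≤ M * a := Nat.le_mul_of_pos_left a hM0
    omega
  have h4 := tInf_le hrb
  rw [Real.dist_eq, abs_lt]
  constructor
  · linarith
  · linarith

lemma tStar_eq {r : ℕ} (hr : 1 ≤ r) : tStar r = tInf r := (tendsto_tInf hr).limUnder_eq

lemma tStar_le {k r : ℕ} (hr : 1 ≤ r) (hrk : r < k) : tStar r ≤ tStarK k r := by
  rw [tStar_eq hr]; exact tInf_le hrk

end Pool.Agent.K6.H30.TT
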